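import Mathlib

set_option autoImplicit false

/-!
# Groups generated by three involutions whose product squares to a central element
(MP_bf82d2_ag, note 6077, (E4))

Let `a, b, c` be involutions generating `G`, `(a b c) ^ 2 = z` central, `z ^ 2 = 1`, `P` a subgroup of
index `2` containing none of them. Put `u = a b`, `v = b c`. Then `v ^ j * u = u * v ^ j * z ^ j`, the
elements outside `P` are the `b u ^ i v ^ j z ^ l`, and `(b u ^ i v ^ j z ^ l) ^ 2 = z ^ (- i j)`. So for
`g` outside `P` we have `g ^ 2 = 1` or `(g u) ^ 2 = 1`.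
-/

namespace Pool.Agent.H81.FIN

variable {G : Type*} [Group G]

section
variable {a b c z : G} (ha : a ^ 2 = 1) (hb : b ^ 2 = 1) (hc : c ^ 2 = 1) (hz : z ^ 2 = 1)
  (hzc : ∀ g : G, g * z = z * g) (habc : (a * b * c) ^ 2 = z)
include ha hb hc hz hzc habc

/-- `v u = u v z`. -/
theorem comm_uv : (b * c) * (a * b) = (a * b) * (b * c) * z := by
  have ha' : a * a = 1 := by rw [← pow_two]; exact ha
  have hb' : b * b = 1 := by rw [← pow_two]; exact hb
  have hc' : c * c = 1 := by rw [← pow_two]; exact hc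
  have hz' : z * z = 1 := by rw [← pow_two]; exact hz
  -- `a b c a b c = z`
  have h1 : a * b * c * (a * b * c) = z := by rw [← pow_two]; exact habc
  -- `b c a b = a z c = a c z`
  have h2 : b * c * (a * b) = a * z * c := by
    have h3 : a * (b * c * (a * b)) * c = z := by
      rw [← h1]; group
    calc b * c * (a * b) = a * a * (b * c * (a * b)) * (c * c) := by rw [ha', hc']; group
      _ = a * (a * (b * c * (a * b)) * c) * c := by group
      _ = a * z * c := by rw [h3]
  rw [h2]
  calc a * z * c = z * a * c := by rw [hzc a]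
    _ = z * (a * c) := by group
    _ = (a * c) * z := (hzc _).symm
    _ = a * (b * b) * c * z := by rw [hb']; group
    _ = (a * b) * (b * c) * z := by group

/-- `v ^ j * u = u * v ^ j * z ^ j`. -/
theorem comm_vj (j : ℤ) : (b * c) ^ j * (a * b) = (a * b) * (b * c) ^ j * z ^ j := by
  have h := comm_uv ha hb hc hz hzc habc
  have h1 : (a * b)⁻¹ * (b * c) * (a * b) = (b * c) * z := by
    rw [mul_assoc, h]; group
  have h2 : (a * b)⁻¹ * (b * c) ^ j * (a * b) = (b * c) ^ j * z ^ j := by
    have h3 := congrArg (fun w => w ^ j) h1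
    have h4 : ((a * b)⁻¹ * (b * c) * (a * b)) ^ j = (a * b)⁻¹ * (b * c) ^ j * (a * b) := by
      have := conj_zpow (a := (a * b)⁻¹) (b := b * c) (i := j)
      rw [inv_inv] at this
      exact this
    rw [h4, (show Commute (b * c) z from hzc _).mul_zpow] at h3
    exact h3
  calc (b * c) ^ j * (a * b) = (a * b) * ((a * b)⁻¹ * (b * c) ^ j * (a * b)) := by group
    _ = (a * b) * (b * c) ^ j * z ^ j := by rw [h2]; group

/-- `v ^ (-j) * u ^ i * v ^ j = u ^ i * z ^ (- (i * j))`. -/
theorem conj_ui (i j : ℤ) : ((b * c) ^ j)⁻¹ * (a * b) ^ i * (b * c) ^ j =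
    (a * b) ^ i * z ^ (-(j * i)) := by
  have h := comm_vj ha hb hc hz hzc habc j
  have h1 : ((b * c) ^ j)⁻¹ * (a * b) * (b * c) ^ j = (a * b) * (z ^ j)⁻¹ := by
    have h2 : (a * b) * (b * c) ^ j = (b * c) ^ j * (a * b) * (z ^ j)⁻¹ := by
      rw [h]; group
    rw [mul_assoc, h2]; group
  have h3 := congrArg (fun w => w ^ i) h1
  have h4 : (((b * c) ^ j)⁻¹ * (a * b) * (b * c) ^ j) ^ i =
      ((b * c) ^ j)⁻¹ * (a * b) ^ i * (b * c) ^ j := by
    have := conj_zpow (a := ((b * c) ^ j)⁻¹) (b := a * b) (i := i)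
    rw [inv_inv] at this
    exact this
  have h5 : Commute (a * b) (z ^ j)⁻¹ := ((show Commute (a * b) z from hzc _).zpow_right j).inv_right
  rw [h4, h5.mul_zpow] at h3
  rw [h3, ← zpow_neg, ← zpow_mul]
  congr 2
  ring

omit ha hc hz hzc habc in
theorem b_inv : b⁻¹ = b := by
  rw [inv_eq_iff_mul_eq_one, ← pow_two]; exact hb

omit hz habc in
/-- Conjugation by `b` inverts `u` and `v`. -/
theorem conj_b (i j l : ℤ) : b * ((a * b) ^ i * (b * c) ^ j * z ^ l) * b =
    (a * b) ^ (-i) * (b * c) ^ (-j) * z ^ l := by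
  have ha' : a * a = 1 := by rw [← pow_two]; exact ha
  have hb' : b * b = 1 := by rw [← pow_two]; exact hb
  have hc' : c * c = 1 := by rw [← pow_two]; exact hc
  have hbi : b⁻¹ = b := b_inv hb
  have hai : a⁻¹ = a := b_inv ha
  have hci : c⁻¹ = c := b_inv hc
  have hu : b * (a * b) * b⁻¹ = (a * b)⁻¹ := by
    rw [mul_inv_rev, hai, hbi]
    calc b * (a * b) * b = b * a * (b * b) := by group
      _ = b * a := by rw [hb']; group
  have hv : b * (b * c) * b⁻¹ = (b * c)⁻¹ := by
    rw [mul_inv_rev, hci, hbi]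
    calc b * (b * c) * b = (b * b) * c * b := by group
      _ = c * b := by rw [hb']; group
  have hz' : b * z ^ l * b⁻¹ = z ^ l := by
    have : Commute b (z ^ l) := (show Commute b z from hzc _).zpow_right l
    rw [this.eq]; group
  have h1 : b * (a * b) ^ i * b⁻¹ = (a * b) ^ (-i) := by
    rw [← conj_zpow, hu, inv_zpow, zpow_neg]
  have h2 : b * (b * c) ^ j * b⁻¹ = (b * c) ^ (-j) := by
    rw [← conj_zpow, hv, inv_zpow, zpow_neg]
  calc b * ((a * b) ^ i * (b * c) ^ j * z ^ l) * b
      = b * ((a * b) ^ i * (b * c) ^ j * z ^ l) * b⁻¹ := by rw [hbi]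
    _ = (b * (a * b) ^ i * b⁻¹) * (b * (b * c) ^ j * b⁻¹) * (b * z ^ l * b⁻¹) := by group
    _ = _ := by rw [h1, h2, hz']

/-- The square of an element outside. -/
theorem sq_out (i j l : ℤ) : (b * ((a * b) ^ i * (b * c) ^ j * z ^ l)) ^ 2 = z ^ (-(j * i)) := by
  have hcz : ∀ (g : G) (k : ℤ), g * z ^ k = z ^ k * g := fun g k =>
    ((show Commute g z from hzc _).zpow_right k).eq
  have hz2 : z ^ l * z ^ l = 1 := by
    rw [← zpow_add, ← two_mul, zpow_mul]
    have : z ^ (2 : ℤ) = 1 := by exact_mod_cast hz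
    rw [this, one_zpow]
  have h1 := conj_b ha hb hc hzc i j l
  have h2 := conj_ui ha hb hc hz hzc habc i j
  rw [pow_two]
  calc b * ((a * b) ^ i * (b * c) ^ j * z ^ l) * (b * ((a * b) ^ i * (b * c) ^ j * z ^ l))
      = (b * ((a * b) ^ i * (b * c) ^ j * z ^ l) * b) * ((a * b) ^ i * (b * c) ^ j * z ^ l) := by
        group
    _ = (a * b) ^ (-i) * (b * c) ^ (-j) * z ^ l * ((a * b) ^ i * (b * c) ^ j * z ^ l) := by rw [h1]
    _ = (a * b) ^ (-i) * (b * c) ^ (-j) * (z ^ l * ((a * b) ^ i * (b * c) ^ j)) * z ^ l := by group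
    _ = (a * b) ^ (-i) * (b * c) ^ (-j) * (((a * b) ^ i * (b * c) ^ j) * z ^ l) * z ^ l := by
        rw [← hcz ((a * b) ^ i * (b * c) ^ j) l]
    _ = (a * b) ^ (-i) * (((b * c) ^ j)⁻¹ * (a * b) ^ i * (b * c) ^ j) * (z ^ l * z ^ l) := by
        rw [zpow_neg (b * c)]; group
    _ = (a * b) ^ (-i) * ((a * b) ^ i * z ^ (-(j * i))) * 1 := by rw [h2, hz2]
    _ = z ^ (-(j * i)) := by group

/-- The normal form. -/
theorem normal_form (hgen : Subgroup.closure ({a, b, c} : Set G) = ⊤) (g : G) :
    (∃ i j l : ℤ, g = (a * b) ^ i * (b * c) ^ j * z ^ l) ∨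
      (∃ i j l : ℤ, g = b * ((a * b) ^ i * (b * c) ^ j * z ^ l)) := by
  have hcz : ∀ (g : G) (k : ℤ), g * z ^ k = z ^ k * g := fun g k =>
    ((show Commute g z from hzc _).zpow_right k).eq
  have ha' : a * a = 1 := by rw [← pow_two]; exact ha
  have hb' : b * b = 1 := by rw [← pow_two]; exact hb
  have hai : a⁻¹ = a := b_inv ha
  have hbi : b⁻¹ = b := b_inv hb
  have hci : c⁻¹ = c := b_inv hc
  -- right multiplication by `u`
  have hU : ∀ i j l : ℤ, (a * b) ^ i * (b * c) ^ j * z ^ l * (a * b) =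
      (a * b) ^ (i + 1) * (b * c) ^ j * z ^ (l + j) := by
    intro i j l
    calc (a * b) ^ i * (b * c) ^ j * z ^ l * (a * b)
        = (a * b) ^ i * (b * c) ^ j * (z ^ l * (a * b)) := by group
      _ = (a * b) ^ i * (b * c) ^ j * ((a * b) * z ^ l) := by rw [hcz]
      _ = (a * b) ^ i * ((b * c) ^ j * (a * b)) * z ^ l := by group
      _ = (a * b) ^ i * ((a * b) * (b * c) ^ j * z ^ j) * z ^ l := by
          rw [comm_vj ha hb hc hz hzc habc j]
      _ = (a * b) ^ i * (a * b) * (b * c) ^ j * (z ^ j * z ^ l) := by group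
      _ = _ := by rw [← zpow_add_one, ← zpow_add, add_comm j l]
  -- right multiplication by `v`
  have hV : ∀ i j l : ℤ, (a * b) ^ i * (b * c) ^ j * z ^ l * (b * c) =
      (a * b) ^ i * (b * c) ^ (j + 1) * z ^ l := by
    intro i j l
    calc (a * b) ^ i * (b * c) ^ j * z ^ l * (b * c)
        = (a * b) ^ i * (b * c) ^ j * (z ^ l * (b * c)) := by group
      _ = (a * b) ^ i * (b * c) ^ j * ((b * c) * z ^ l) := by rw [hcz]
      _ = (a * b) ^ i * ((b * c) ^ j * (b * c)) * z ^ l := by group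
      _ = _ := by rw [← zpow_add_one]
  have hB : ∀ i j l : ℤ, (a * b) ^ i * (b * c) ^ j * z ^ l * b =
      b * ((a * b) ^ (-i) * (b * c) ^ (-j) * z ^ l) := by
    intro i j l
    rw [← conj_b ha hb hc hzc i j l]
    calc (a * b) ^ i * (b * c) ^ j * z ^ l * b
        = 1 * ((a * b) ^ i * (b * c) ^ j * z ^ l * b) := by group
      _ = (b * b) * ((a * b) ^ i * (b * c) ^ j * z ^ l * b) := by rw [hb']
      _ = _ := by group
  have hBB : ∀ i j l : ℤ, b * ((a * b) ^ i * (b * c) ^ j * z ^ l) * b =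
      (a * b) ^ (-i) * (b * c) ^ (-j) * z ^ l := fun i j l => conj_b ha hb hc hzc i j l
  have eA : ∀ g : G, g * a = g * (a * b) * b := fun g => by
    rw [mul_assoc, mul_assoc a, hb', mul_one]
  have eC : ∀ g : G, g * c = g * b * (b * c) := fun g => by
    rw [mul_assoc g, ← mul_assoc b, hb', one_mul]
  have eU : ∀ i j l : ℤ, b * ((a * b) ^ i * (b * c) ^ j * z ^ l) * (a * b) =
      b * ((a * b) ^ (i + 1) * (b * c) ^ j * z ^ (l + j)) := by
    intro i j l
    rw [mul_assoc b, hU]
  have step : ∀ x ∈ ({a, b, c} : Set G), ∀ g : G,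
      ((∃ i j l : ℤ, g = (a * b) ^ i * (b * c) ^ j * z ^ l) ∨
        (∃ i j l : ℤ, g = b * ((a * b) ^ i * (b * c) ^ j * z ^ l))) →
      ((∃ i j l : ℤ, g * x = (a * b) ^ i * (b * c) ^ j * z ^ l) ∨
        (∃ i j l : ℤ, g * x = b * ((a * b) ^ i * (b * c) ^ j * z ^ l))) := by
    intro x hx g hg
    simp only [Set.mem_insert_iff, Set.mem_singleton_iff] at hx
    rcases hg with ⟨i, j, l, hg⟩ | ⟨i, j, l, hg⟩
    · rcases hx with hx | hx | hx
      · right
        refine ⟨-(i + 1), -j, l + j, ?_⟩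
        rw [hx, eA g, hg, hU, hB]
      · right
        refine ⟨-i, -j, l, ?_⟩
        rw [hx, hg, hB]
      · right
        refine ⟨-i, -j + 1, l, ?_⟩
        rw [hx, eC g, hg, hB, mul_assoc b, hV]
    · rcases hx with hx | hx | hx
      · left
        refine ⟨-(i + 1), -j, l + j, ?_⟩
        rw [hx, eA g, hg, eU, hBB]
      · left
        refine ⟨-i, -j, l, ?_⟩
        rw [hx, hg, hBB]
      · left
        refine ⟨-i, -j + 1, l, ?_⟩
        rw [hx, eC g, hg, hBB, hV]
  have hmem : g ∈ Subgroup.closure ({a, b, c} : Set G) := by rw [hgen]; exact Subgroup.mem_top g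
  induction hmem using Subgroup.closure_induction_right with
  | one => exact Or.inl ⟨0, 0, 0, by simp⟩
  | mul_right x _ y hy ih => exact step y hy x ih
  | mul_inv_cancel x _ y hy ih =>
    have hyi : y⁻¹ = y := by
      simp only [Set.mem_insert_iff, Set.mem_singleton_iff] at hy
      rcases hy with h | h | h
      · rw [h]; exact hai
      · rw [h]; exact hbi
      · rw [h]; exact hci
    rw [hyi]
    exact step y hy x ih

end

theorem zpow_even {z : G} (hz : z ^ 2 = 1) {k : ℤ} (hk : Even k) : z ^ k = 1 := by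
  obtain ⟨m, rfl⟩ := hk
  rw [← two_mul, zpow_mul]
  have : z ^ (2 : ℤ) = 1 := by exact_mod_cast hz
  rw [this, one_zpow]

/-- At least a quarter of the elements of `G` are involutions (or `1`). -/
theorem card_le_four_mul [Finite G] {a b c z : G} (ha : a ^ 2 = 1) (hb : b ^ 2 = 1)
    (hc : c ^ 2 = 1) (hz : z ^ 2 = 1) (hzc : ∀ g : G, g * z = z * g)
    (habc : (a * b * c) ^ 2 = z) (hgen : Subgroup.closure ({a, b, c} : Set G) = ⊤)
    (P : Subgroup G) (hP : P.index = 2) (haP : a ∉ P) (hbP : b ∉ P) (hcP : c ∉ P) :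
    Nat.card G ≤ 4 * Nat.card {g : G // g ^ 2 = 1} := by
  classical
  have : Fintype G := Fintype.ofFinite G
  have huP : a * b ∈ P := by
    rw [Subgroup.mul_mem_iff_of_index_two hP]
    exact iff_of_false haP hbP
  have hvP : b * c ∈ P := by
    rw [Subgroup.mul_mem_iff_of_index_two hP]
    exact iff_of_false hbP hcP
  have hzP : z ∈ P := by
    rw [← habc, pow_two, Subgroup.mul_mem_iff_of_index_two hP]
  have key : ∀ g : G, g ∉ P → g ^ 2 = 1 ∨ (g * (a * b)) ^ 2 = 1 := by
    intro g hg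
    rcases normal_form ha hb hc hz hzc habc hgen g with ⟨i, j, l, rfl⟩ | ⟨i, j, l, rfl⟩
    · exact absurd (P.mul_mem (P.mul_mem (P.zpow_mem huP i) (P.zpow_mem hvP j))
        (P.zpow_mem hzP l)) hg
    · rcases Int.even_or_odd (j * i) with he | ho
      · left
        rw [sq_out ha hb hc hz hzc habc]
        exact zpow_even hz he.neg
      · right
        have hcz : ∀ (g : G) (k : ℤ), g * z ^ k = z ^ k * g := fun g k =>
          ((show Commute g z from hzc _).zpow_right k).eq
        have h1 : b * ((a * b) ^ i * (b * c) ^ j * z ^ l) * (a * b) =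
            b * ((a * b) ^ (i + 1) * (b * c) ^ j * z ^ (l + j)) := by
          calc b * ((a * b) ^ i * (b * c) ^ j * z ^ l) * (a * b)
              = b * ((a * b) ^ i * (b * c) ^ j * (z ^ l * (a * b))) := by group
            _ = b * ((a * b) ^ i * (b * c) ^ j * ((a * b) * z ^ l)) := by rw [hcz]
            _ = b * ((a * b) ^ i * ((b * c) ^ j * (a * b)) * z ^ l) := by group
            _ = b * ((a * b) ^ i * ((a * b) * (b * c) ^ j * z ^ j) * z ^ l) := by
                rw [comm_vj ha hb hc hz hzc habc j]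
            _ = b * ((a * b) ^ i * (a * b) * (b * c) ^ j * (z ^ j * z ^ l)) := by group
            _ = _ := by rw [← zpow_add_one, ← zpow_add, add_comm j l]
        rw [h1, sq_out ha hb hc hz hzc habc]
        apply zpow_even hz
        rw [Int.odd_mul] at ho
        exact (ho.2.add_one.mul_left j).neg
  have h1 : (Finset.univ.filter fun g : G => g ∉ P) ⊆
      (Finset.univ.filter fun g : G => g ^ 2 = 1) ∪
        (Finset.univ.filter fun g : G => (g * (a * b)) ^ 2 = 1) := by
    intro g hg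
    rw [Finset.mem_filter] at hg
    rw [Finset.mem_union, Finset.mem_filter, Finset.mem_filter]
    rcases key g hg.2 with h | h
    · exact Or.inl ⟨Finset.mem_univ _, h⟩
    · exact Or.inr ⟨Finset.mem_univ _, h⟩
  have h2 : (Finset.univ.filter fun g : G => (g * (a * b)) ^ 2 = 1).card =
      (Finset.univ.filter fun g : G => g ^ 2 = 1).card := by
    refine Finset.card_bij (fun g _ => g * (a * b)) ?_ ?_ ?_
    · intro g hg
      rw [Finset.mem_filter] at hg ⊢
      exact ⟨Finset.mem_univ _, hg.2⟩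
    · intro g _ g' _ h
      exact mul_right_cancel h
    · intro g hg
      rw [Finset.mem_filter] at hg
      refine ⟨g * (a * b)⁻¹, ?_, by group⟩
      rw [Finset.mem_filter]
      refine ⟨Finset.mem_univ _, ?_⟩
      rw [inv_mul_cancel_right]
      exact hg.2
  have h3 : Nat.card {g : G // g ^ 2 = 1} = (Finset.univ.filter fun g : G => g ^ 2 = 1).card := by
    rw [Nat.card_eq_fintype_card, Fintype.card_subtype]
  have h4 : (Finset.univ.filter fun g : G => g ∉ P).card + Nat.card P = Nat.card G := by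
    have h5 : Nat.card P = (Finset.univ.filter fun g : G => g ∈ P).card := by
      rw [Nat.card_eq_fintype_card, Fintype.card_subtype]
    rw [h5, Nat.card_eq_fintype_card, ← Finset.card_univ, add_comm]
    exact Finset.card_filter_add_card_filter_not (fun g => g ∈ P)
  have h5 := P.card_mul_index
  rw [hP] at h5
  have h6 := (Finset.card_le_card h1).trans (Finset.card_union_le _ _)
  rw [h2, ← h3] at h6
  omega

end Pool.Agent.H81.FIN
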